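import Pool.Agent.Q207.AM.Main

/-!
# A model over which all definable class forcings have an amenable forcing relation

The definitions used here: formulas of set theory `Fml`, truth `Sat` in a class, transitive models
`IsZFC` of ZFC (`Pool.Agent.W868.Defs`); names `IsName`, evaluation `val`, the extension
`Ext` = `M[G]`, filters, dense sets, generic filters `IsGeneric`, the forcing relation `Forces`
(`Pool.Agent.Q207.CF.Defs`); the class `Cls δ M` of conditions and the order `Rel ρ M` that are
defined over `M` by the formulas `δ` and `ρ`, and `Amenable` (`Pool.Agent.Q207.AM.Defs`).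
-/

set_option autoImplicit false

namespace Pool.Agent.Results.MP_cbd9ca_lc.Disproof

open Pool.Agent.W868 (Fml Sat IsZFC)
open Q207.AM

/-- **Theorem.** (1) There is a single countable transitive model `M` of ZFC such that for all
notions of class forcing for `M` that are definable over `M` with parameters from `M`, the
forcing relation is `M`-amenable for all formulas.

(2) So there are no formulas `δ` and `ρ` without parameters such that for every countable
transitive model `M` of ZFC, the forcing relation of the class forcing that they define over `M`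
is not `M`-amenable. -/
theorem result :
    (∃ M : Set ZFSet.{0}, IsZFC M ∧ M.Countable ∧
      ∀ (δ : Fml ZFSet.{0} 1) (ρ : Fml ZFSet.{0} 2), δ.Over M → ρ.Over M →
        ∀ (n : ℕ) (φ : Fml Empty n), Amenable M (Cls δ M) (Q207.AM.Rel ρ M) φ) ∧
    ¬ ∃ (δ : Fml Empty 1) (ρ : Fml Empty 2), ∀ M : Set ZFSet.{0}, IsZFC M → M.Countable →
      ¬ ∀ (n : ℕ) (φ : Fml Empty n), Amenable M {p | p ∈ M ∧ Sat M Empty.elim δ ![p]}
        (fun p q => Sat M Empty.elim ρ ![p, q]) φ := by
  refine ⟨Q207.AM.main, ?_⟩
  rintro ⟨δ, ρ, h⟩
  obtain ⟨M, hM, hc, h1⟩ := Q207.AM.main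
  refine h M hM hc fun n φ => ?_
  have h2 := h1 (δ.map Empty.elim) (ρ.map Empty.elim) (over_empty δ) (over_empty ρ) n φ
  have h0 : (id ∘ Empty.elim : Empty → ZFSet.{0}) = Empty.elim := funext fun a => a.elim
  have h3 : Cls (δ.map Empty.elim) M = {p | p ∈ M ∧ Sat M Empty.elim δ ![p]} := by
    ext p
    refine and_congr_right fun _ => ?_
    rw [Pool.Agent.W868.sat_map, h0]
  have h4 : Q207.AM.Rel (ρ.map Empty.elim) M = fun p q => Sat M Empty.elim ρ ![p, q] := by
    funext p q
    refine propext ?_
    rw [Q207.AM.Rel, Pool.Agent.W868.sat_map, h0]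
  rwa [h3, h4] at h2

end Pool.Agent.Results.MP_cbd9ca_lc.Disproof
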